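import Pool.Agent.Lib.MP_52f683_gt.F.BasicTmp

-- part Pool.Agent.Lib.MP_52f683_gt.CA.A0
section

set_option autoImplicit false
set_option linter.unusedSectionVars false

open Set Topology Filter
open scoped Cardinal

namespace Pool.Agent.Lib.MP_52f683_gt

universe u

variable {S : Type u} [TopologicalSpace S]

/-- discrete sets of size `μ` -/
structure MDa (μ : Cardinal.{u}) (A : Set S) : Prop where
  dsc : Disc A
  card : #A = μ

/-- `μ` is the least size of a discrete set with an accumulation point -/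
structure MCa (S : Type u) [TopologicalSpace S] (μ : Cardinal.{u}) : Prop where
  thin : Thin S
  inf : ℵ₀ ≤ μ
  small : ∀ A : Set S, Disc A → #A < μ → derivedSet A = ∅
  big : ∀ A : Set S, MDa μ A → (derivedSet A).Nonempty
  ex : ∃ D : Set S, MDa μ D

lemma Thin.eqv_disc_ca (hS : Thin S) {A B : Set S} (hA : Disc A) (hB : Disc B) (h : #A = #B) :
    Eqv A B := by
  have := discreteTopology_of_noAccPts (E := A) fun x hx h => disjoint_left.1 hA hx h
  have := discreteTopology_of_noAccPts (E := B) fun x hx h => disjoint_left.1 hB hx h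
  obtain ⟨e⟩ := Cardinal.eq.1 h
  exact hS A B ⟨e.toHomeomorphOfDiscrete⟩

lemma Disc.union_ca {A B : Set S} (hA : Disc A) (hB : Disc B) (h1 : Disjoint A (derivedSet B))
    (h2 : Disjoint B (derivedSet A)) : Disc (A ∪ B) := by
  unfold Disc
  rw [derivedSet_union]
  exact disjoint_union_left.2 ⟨disjoint_union_right.2 ⟨hA, h1⟩, disjoint_union_right.2 ⟨h2, hB⟩⟩

lemma Disc.sp_ca {D A B : Set S} (hD : Disc D) (hA : A ⊆ D) (hB : B ⊆ D) (h : Disjoint A B) :
    Sp A B := by
  refine ⟨disjoint_left.2 fun x hx hx' => ?_, disjoint_left.2 fun x hx hx' => ?_⟩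
  · rcases mem_cl_iff.1 hx' with h1 | h1
    · exact disjoint_left.1 h hx h1
    · exact disjoint_left.1 hD (hA hx) (der_mono hB h1)
  · rcases mem_cl_iff.1 hx' with h1 | h1
    · exact disjoint_left.1 h h1 hx
    · exact disjoint_left.1 hD (hB hx) (der_mono hA h1)

variable {μ : Cardinal.{u}}

lemma MDa.image {A : Set S} (hA : MDa μ A) (h : S ≃ₜ S) : MDa μ (h '' A) :=
  ⟨hA.dsc.image h, by rw [Cardinal.mk_image_eq h.injective, hA.card]⟩

lemma MDa.le {A B : Set S} (hA : MDa μ A) (h : B ⊆ A) : #B ≤ μ :=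
  hA.card ▸ Cardinal.mk_le_mk_of_subset h

lemma MDa.mono {A B : Set S} (hA : MDa μ A) (h : B ⊆ A) (hB : ¬ #B < μ) : MDa μ B :=
  ⟨hA.dsc.mono h, le_antisymm (hA.le h) (not_lt.1 hB)⟩

lemma MDa.sup {D A B : Set S} (hD : MDa μ D) (hA : MDa μ A) (h : A ⊆ B) (h' : B ⊆ D) : MDa μ B :=
  hD.mono h' (not_lt.2 (hA.card ▸ Cardinal.mk_le_mk_of_subset h))

lemma MCa.eqv (hS : MCa S μ) {A B : Set S} (hA : MDa μ A) (hB : MDa μ B) : Eqv A B :=
  hS.thin.eqv_disc_ca hA.dsc hB.dsc (hA.card.trans hB.card.symm)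

lemma MCa.of_der (hS : MCa S μ) {D A : Set S} (hD : MDa μ D) (h : A ⊆ D) {x : S}
    (hx : x ∈ derivedSet A) : MDa μ A :=
  hD.mono h fun h' => by rw [hS.small A (hD.dsc.mono h) h'] at hx; exact hx

lemma MCa.infinite (hS : MCa S μ) {D : Set S} (hD : MDa μ D) : D.Infinite :=
  Set.infinite_coe_iff.1 (Cardinal.infinite_iff.2 (hD.card ▸ hS.inf))

lemma MCa.union (hS : MCa S μ) {A B : Set S} (hA : MDa μ A) (hB : MDa μ B)
    (h1 : Disjoint A (derivedSet B)) (h2 : Disjoint B (derivedSet A)) : MDa μ (A ∪ B) := by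
  refine ⟨hA.dsc.union_ca hB.dsc h1 h2, le_antisymm ?_ ?_⟩
  · refine (Cardinal.mk_union_le A B).trans ?_
    rw [hA.card, hB.card, Cardinal.add_eq_self hS.inf]
  · exact hA.card ▸ Cardinal.mk_le_mk_of_subset subset_union_left

lemma MCa.union_sp (hS : MCa S μ) {A B : Set S} (hA : MDa μ A) (hB : MDa μ B) (h : Sp A B) :
    MDa μ (A ∪ B) :=
  hS.union hA hB (h.1.mono_right der_sub_cl) (h.2.mono_right der_sub_cl)

lemma MCa.closed (hS : MCa S μ) {A : Set S} (hA : Disc A) (h : #A < μ) : IsClosed A := by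
  rw [isClosed_iff_derivedSet_subset, hS.small A hA h]; exact empty_subset _

lemma MCa.der_sub (hS : MCa S μ) {A B : Set S} (h1 : Disc (A \ B)) (h2 : #(A \ B : Set S) < μ) :
    derivedSet A ⊆ derivedSet B :=
  fun x hx => der_mono inter_subset_right (der_inter hx (by rw [hS.small _ h1 h2]; exact id))

/-- a discrete set with an accumulation point contains a set of size `μ` -/
lemma MCa.exists_md (hS : MCa S μ) {A : Set S} (hA : Disc A) (h : (derivedSet A).Nonempty) :
    ∃ B ⊆ A, MDa μ B := by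
  have : μ ≤ #A := not_lt.1 fun h' => by rw [hS.small A hA h'] at h; exact not_nonempty_empty h
  obtain ⟨B, h1, h2⟩ := Cardinal.le_mk_iff_exists_subset.1 this
  exact ⟨B, h1, hA.mono h1, h2⟩

/-- the limits of `D` along the filter of complements of small sets -/
def LimMa (μ : Cardinal.{u}) (D : Set S) : Set S := {p | ∀ A ⊆ D, MDa μ A → p ∈ derivedSet A}

lemma limM_sub_ca {D : Set S} (hD : MDa μ D) : LimMa μ D ⊆ derivedSet D :=
  fun _ hp => hp D subset_rfl hD

lemma img_limM_ca (h : S ≃ₜ S) (D : Set S) : h '' LimMa μ D = LimMa μ (h '' D) := by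
  have key : ∀ (h : S ≃ₜ S) (D : Set S), h '' LimMa μ D ⊆ LimMa μ (h '' D) := by
    rintro h D _ ⟨p, hp, rfl⟩ A hA hA'
    obtain ⟨B, hB, rfl⟩ := subset_image_iff.1 hA
    rw [← img_der, mem_img]
    exact hp B hB (by simpa [img_symm_img] using hA'.image h.symm)
  refine (key h D).antisymm fun x hx => ?_
  have := key h.symm _ (mem_image_of_mem _ hx)
  rw [img_symm_img] at this
  exact ⟨h.symm x, this, by simp⟩

lemma contOn_of_cl_ca {A : Set S} {f : S → S}
    (h : ∀ x ∈ A, ∀ W, IsOpen W → f x ∈ W →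
      ∃ U, IsOpen U ∧ x ∈ U ∧ ∀ y ∈ A ∩ U, f y ∈ W) : ContinuousOn f A := by
  intro x hx
  rw [ContinuousWithinAt, (nhds_basis_opens (f x)).tendsto_right_iff]
  rintro W ⟨hxW, hW⟩
  obtain ⟨U, hU, hxU, hF⟩ := h x hx W hW hxW
  filter_upwards [self_mem_nhdsWithin, mem_nhdsWithin_of_mem_nhds (hU.mem_nhds hxU)]
    with y h1 h2 using hF y ⟨h1, h2⟩

variable [T1Space S]

lemma isClosed_limM_ca (D : Set S) : IsClosed (LimMa μ D) := by
  have : LimMa μ D = ⋂ A ⊆ D, ⋂ _ : MDa μ A, derivedSet A := by ext; simp [LimMa]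
  rw [this]
  exact isClosed_biInter fun A _ => isClosed_iInter fun _ => isClosed_derivedSet A

lemma not_mem_cl_diff_ca {A : Set S} {x : S} (h : x ∉ derivedSet A) : x ∉ closure (A \ {x}) :=
  fun h' => h (by rwa [mem_derivedSet, accPt_principal_iff_clusterPt, ← mem_closure_iff_clusterPt])

lemma der_diff_single_ca (A : Set S) (x : S) : derivedSet (A \ {x}) = derivedSet A :=
  (der_mono sdiff_subset).antisymm fun _ hy => der_diff hy (by simp [der_finite (finite_singleton x)])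

lemma MCa.contL (hS : MCa S μ) {D1 D2 Y : Set S} (h1 : MDa μ D1) (h2 : MDa μ D2) {g h : S → S}
    [DecidablePred (· ∈ D1)] (hg : InjOn g D1) (hg' : MapsTo g D1 D2) (hh : Continuous h)
    (hY : Y ⊆ derivedSet D1) (hY' : MapsTo h Y (LimMa μ D2)) :
    ContinuousOn (D1.piecewise g h) (D1 ∪ Y) := by
  refine contOn_of_cl_ca fun x hx W hW hxW => ?_
  rcases hx with hx | hx
  · refine ⟨(closure (D1 \ {x}))ᶜ, isClosed_closure.isOpen_compl,
      not_mem_cl_diff_ca (disjoint_left.1 h1.dsc hx), ?_⟩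
    rintro y ⟨hy | hy, hy'⟩
    · obtain rfl : y = x := by_contra fun hne => hy' (subset_closure ⟨hy, hne⟩)
      exact hxW
    · exact (hy' (der_sub_cl (by rw [der_diff_single_ca]; exact hY hy))).elim
  · have hx' : x ∉ D1 := fun h' => disjoint_left.1 h1.dsc h' (hY hx)
    rw [piecewise_eq_of_notMem _ _ _ hx'] at hxW
    have hsm : #(D2 \ W : Set S) < μ := by
      by_contra hb
      exact der_sub_closed hW.isClosed_compl (fun y hy => hy.2)
        (hY' hx _ sdiff_subset (h2.mono sdiff_subset hb)) hxW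
    have hT : #({y | y ∈ D1 ∧ g y ∉ W} : Set S) < μ := by
      refine lt_of_le_of_lt (Cardinal.mk_le_of_injective
        (f := fun y => (⟨g y.1, hg' y.2.1, y.2.2⟩ : (D2 \ W : Set S))) ?_) hsm
      intro a b e
      exact Subtype.ext (hg a.2.1 b.2.1 (congrArg Subtype.val e))
    have hTc := hS.closed (h1.dsc.mono fun y hy => hy.1) hT
    refine ⟨h ⁻¹' W \ {y | y ∈ D1 ∧ g y ∉ W}, (hW.preimage hh).sdiff hTc,
      ⟨hxW, fun h' => hx' h'.1⟩, fun y hy => ?_⟩
    by_cases hy' : y ∈ D1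
    · rw [piecewise_eq_of_mem _ _ _ hy']
      exact by_contra fun hn => hy.2.2 ⟨hy', hn⟩
    · rw [piecewise_eq_of_notMem _ _ _ hy']; exact hy.2.1

lemma MCa.conv_glue (hS : MCa S μ) {D1 D2 Y : Set S} (h1 : MDa μ D1) (h2 : MDa μ D2) (h : S ≃ₜ S)
    (hY : Y ⊆ LimMa μ D1) (hY' : h '' Y ⊆ LimMa μ D2) :
    ∃ g : S ≃ₜ S, g '' D1 = D2 ∧ g '' Y = h '' Y := by
  classical
  obtain ⟨g, hg⟩ := hS.eqv h1 h2
  have a1 := hY.trans (limM_sub_ca h1)
  have a2 := hY'.trans (limM_sub_ca h2)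
  have n1 : ∀ y ∈ Y, y ∉ D1 := fun y hy h' => disjoint_left.1 h1.dsc h' (a1 hy)
  have n2 : ∀ y ∈ h '' Y, y ∉ D2 := fun y hy h' => disjoint_left.1 h2.dsc h' (a2 hy)
  have m1 : MapsTo g D1 D2 := fun x hx => hg ▸ mem_image_of_mem _ hx
  have m2 : MapsTo g.symm D2 D1 := fun x hx => by
    rw [← hg] at hx
    obtain ⟨y, hy, rfl⟩ := hx
    simpa using hy
  obtain ⟨k, hk⟩ := hS.thin (D1 ∪ Y) (D2 ∪ h '' Y) (homeo_of_maps (D1.piecewise g h)
    (D2.piecewise g.symm h.symm)
    (by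
      rintro x (hx | hx)
      · rw [piecewise_eq_of_mem _ _ _ hx]; exact Or.inl (m1 hx)
      · rw [piecewise_eq_of_notMem _ _ _ (n1 x hx)]; exact Or.inr (mem_image_of_mem _ hx))
    (by
      rintro x (hx | hx)
      · rw [piecewise_eq_of_mem _ _ _ hx]; exact Or.inl (m2 hx)
      · rw [piecewise_eq_of_notMem _ _ _ (n2 x hx)]
        obtain ⟨y, hy, rfl⟩ := hx
        exact Or.inr (by simpa using hy))
    (by
      rintro x (hx | hx)
      · rw [piecewise_eq_of_mem _ _ _ hx, piecewise_eq_of_mem _ _ _ (m1 hx)]; simp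
      · rw [piecewise_eq_of_notMem _ _ _ (n1 x hx),
          piecewise_eq_of_notMem _ _ _ (n2 _ (mem_image_of_mem _ hx))]
        simp)
    (by
      rintro x (hx | hx)
      · rw [piecewise_eq_of_mem _ _ _ hx, piecewise_eq_of_mem _ _ _ (m2 hx)]; simp
      · obtain ⟨y, hy, rfl⟩ := hx
        rw [piecewise_eq_of_notMem _ _ _ (n2 _ (mem_image_of_mem _ hy)),
          Homeomorph.symm_apply_apply, piecewise_eq_of_notMem _ _ _ (n1 y hy)])
    (hS.contL h1 h2 g.injective.injOn m1 h.continuous a1 fun y hy => hY' (mem_image_of_mem _ hy))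
    (hS.contL h2 h1 g.symm.injective.injOn m2 h.symm.continuous a2
      (by rintro _ ⟨y, hy, rfl⟩; simpa using hY hy)))
  exact ⟨k, split_img k hk (Disjoint.mono_right (der_union_sub a1) h1.dsc)
    (a1.trans (der_mono subset_union_left)) (Disjoint.mono_right (der_union_sub a2) h2.dsc)
    (a2.trans (der_mono subset_union_left))⟩

lemma MCa.lim_eq (hS : MCa S μ) {D A : Set S} (hD : MDa μ D) (hA : A ⊆ D) (hA' : MDa μ A) :
    LimMa μ A = LimMa μ D := by
  obtain ⟨g, h1, h2⟩ := hS.conv_glue hD hA' (Homeomorph.refl S) subset_rfl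
    (by rintro _ ⟨p, hp, rfl⟩ B hB; exact hp B (hB.trans hA))
  rw [← h1, ← img_limM_ca, h2]
  simp

variable [Infinite S]

lemma Thin.cd_insert_ca (hS : Thin S) {D : Set S} (hD : CD D) (x : S) : CD (insert x D) :=
  hD.insert (by rw [hS.der_empty hD]; exact id)

/-- two translates of a nonempty proper closed set are not comparable -/
lemma Thin.incomp_ca (hS : Thin S) {L : Set S} (hL : IsClosed L) (hne : L.Nonempty) (hs : L ≠ univ) :
    ∃ g1 g2 : S ≃ₜ S, ¬ g1 '' L ⊆ g2 '' L ∧ ¬ g2 '' L ⊆ g1 '' L := by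
  obtain ⟨q, hq⟩ := hne
  obtain ⟨p, hp⟩ := nonempty_compl.2 hs
  by_cases hf : L.Finite
  · obtain ⟨g, hg⟩ := hS.homog q p
    have h1 : ¬ g '' L ⊆ L := fun h => hp (h ⟨q, hq, hg⟩)
    refine ⟨g, Homeomorph.refl S, by simpa using h1, fun h => h1 ?_⟩
    have h2 : L ⊆ g '' L := by simpa using h
    exact (eq_of_subset_of_ncard_le h2 (by rw [ncard_image_of_injective _ g.injective])
      (hf.image g)).ge
  · obtain ⟨R1, a1, a2⟩ := hS.exists_cd_closed hL hf
    obtain ⟨R2, b1, b2⟩ := hS.exists_cd_compl hL hs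
    have key : ∀ {x y : S}, x ≠ y → ∃ g : S ≃ₜ S, x ∈ g '' L ∧ y ∉ g '' L := by
      intro x y hxy
      refine hS.all_pairs (fun x y => ∃ g : S ≃ₜ S, x ∈ g '' L ∧ y ∉ g '' L) ?_
        (hS.cd_insert_ca a2 p) (hS.cd_insert_ca b2 q) (mem_insert _ _) (mem_insert _ _) ?_ ?_ hxy
      · rintro h x y ⟨g, e1, e2⟩
        exact ⟨g.trans h, by rwa [img_trans, mem_img], by rwa [img_trans, mem_img]⟩
      · exact fun z hz hne => ⟨Homeomorph.refl S, by simpa using a1 (hz.resolve_left hne),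
          by simpa using hp⟩
      · exact fun z hz hne => ⟨Homeomorph.refl S, by simpa using hq,
          by simpa using b1 (hz.resolve_left hne)⟩
    have hpq : p ≠ q := fun e => hp (e ▸ hq)
    obtain ⟨g1, c1, c2⟩ := key hpq
    obtain ⟨g2, d1, d2⟩ := key hpq.symm
    exact ⟨g1, g2, fun h => d2 (h c1), fun h => c2 (h d1)⟩

lemma MCa.lim_empty (hS : MCa S μ) {D : Set S} (hD : MDa μ D) : LimMa μ D = ∅ := by
  by_contra hne
  obtain ⟨d, hd⟩ := (hS.infinite hD).nonempty
  obtain ⟨g1, g2, h1, h2⟩ := hS.thin.incomp_ca (isClosed_limM_ca D) (nonempty_iff_ne_empty.2 hne)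
    fun e => disjoint_left.1 hD.dsc hd (limM_sub_ca hD (e ▸ mem_univ d))
  rw [img_limM_ca, img_limM_ca] at h1 h2
  obtain ⟨x, hx, hx'⟩ := not_subset.1 h1
  obtain ⟨y, hy, hy'⟩ := not_subset.1 h2
  have hD1 := hD.image g1
  have hE := hD.image g2
  have sh : ∀ {E : Set S} {x : S}, MDa μ E → x ∉ LimMa μ E → ∃ B ⊆ E, MDa μ B ∧ x ∉ closure B := by
    intro E x hE hx
    obtain ⟨B, b1, b2, b3⟩ : ∃ B ⊆ E, MDa μ B ∧ x ∉ derivedSet B := by simpa [LimMa] using hx
    obtain ⟨z, hz⟩ := hS.big B b2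
    exact ⟨B \ {x}, sdiff_subset.trans b1,
      hS.of_der b2 sdiff_subset (x := z) (by rwa [der_diff_single_ca]), not_mem_cl_diff_ca b3⟩
  obtain ⟨B, b1, b2, b3⟩ := sh hE hx'
  have hA : MDa μ (g1 '' D \ closure B) :=
    hS.of_der hD1 sdiff_subset (der_diff_cl (limM_sub_ca hD1 hx) b3)
  obtain ⟨A1, a1, a2, a3⟩ := sh hA (by rwa [hS.lim_eq hD1 sdiff_subset hA])
  have hB1 : MDa μ (B \ closure A1) := hS.of_der b2 sdiff_subset (der_diff_cl (hy B b1 b2) a3)
  have hU : MDa μ (A1 ∪ B \ closure A1) := hS.union_sp a2 hB1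
    ⟨disjoint_left.2 fun z hz hz' => (a1 hz).2 (closure_mono sdiff_subset hz'), disjoint_sdiff_left⟩
  refine hx' ?_
  rw [← hS.lim_eq hE (sdiff_subset.trans b1) hB1, hS.lim_eq hU subset_union_right hB1,
    ← hS.lim_eq hU subset_union_left a2, hS.lim_eq hD1 (a1.trans sdiff_subset) a2]
  exact hx

lemma MCa.shrink1 (hS : MCa S μ) {D : Set S} (hD : MDa μ D) (x : S) :
    ∃ B ⊆ D, MDa μ B ∧ x ∉ derivedSet B := by
  have : x ∉ LimMa μ D := by rw [hS.lim_empty hD]; exact id
  simpa [LimMa] using this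

lemma MCa.der_inf (hS : MCa S μ) {D : Set S} (hD : MDa μ D) : (derivedSet D).Infinite := by
  intro hf
  have key : ∀ F : Set S, F.Finite → ∃ B ⊆ D, MDa μ B ∧ Disjoint F (derivedSet B) := by
    intro F hF
    induction F, hF using Set.Finite.induction_on with
    | empty => exact ⟨D, subset_rfl, hD, by simp⟩
    | @insert a s _ _ ih =>
      obtain ⟨B, b1, b2, b3⟩ := ih
      obtain ⟨C, c1, c2, c3⟩ := hS.shrink1 b2 a
      exact ⟨C, c1.trans b1, c2, disjoint_insert_left.2 ⟨c3, b3.mono_right (der_mono c1)⟩⟩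
  obtain ⟨B, h1, h2, h3⟩ := key _ hf
  obtain ⟨x, hx⟩ := hS.big B h2
  exact disjoint_left.1 h3 (der_mono h1 hx) hx

lemma MCa.meet0 (hS : MCa S μ) {D A B : Set S} (hD : MDa μ D) (hA : A ⊆ D) (hB : B ⊆ D)
    (hAB : Disjoint A B) : ∃ A1 ⊆ A, derivedSet A1 = derivedSet A ∩ derivedSet B := by
  by_cases hBf : #B < μ
  · exact ⟨∅, empty_subset _, by
      rw [hS.small B (hD.dsc.mono hB) hBf, der_finite finite_empty, inter_empty]⟩
  have hB' := hD.mono hB hBf
  set Z := derivedSet A \ derivedSet B with hZ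
  have hZD : Z ⊆ derivedSet D := sdiff_subset.trans (der_mono hA)
  have sp : ∀ P Q : Set S, P ⊆ D → Q ⊆ D → Disjoint P Q → Disjoint Z (derivedSet Q) →
      Sp (P ∪ Z) Q := by
    intro P Q hP hQ hPQ hZQ
    have := hD.dsc.sp_ca hP hQ hPQ
    refine ⟨disjoint_union_left.2 ⟨this.1, ?_⟩, ?_⟩
    · rw [closure_eq_self_union_derivedSet]
      exact disjoint_union_right.2 ⟨(Disjoint.mono hQ hZD hD.dsc).symm, hZQ⟩
    · rw [closure_union]
      exact disjoint_union_right.2 ⟨this.2,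
        Disjoint.mono hQ (closure_minimal hZD (isClosed_derivedSet D)) hD.dsc⟩
  have spl : ∀ (h : S ≃ₜ S) (P Q : Set S), A ⊆ P → P ⊆ D → A ⊆ Q → Q ⊆ D →
      h '' (P ∪ Z) = Q ∪ Z → h '' P = Q ∧ h '' Z = Z := by
    intro h P Q h1 h2 h3 h4 e
    have a1 : ∀ P : Set S, P ⊆ D → Disjoint P (derivedSet (P ∪ Z)) := fun P hP =>
      Disjoint.mono hP ((der_mono (union_subset_union_left _ hP)).trans (der_union_sub hZD)) hD.dsc
    have a2 : ∀ P : Set S, A ⊆ P → Z ⊆ derivedSet (P ∪ Z) := fun P hP =>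
      sdiff_subset.trans (der_mono (hP.trans subset_union_left))
    exact split_img h e (a1 P h2) (a2 P h1) (a1 Q h4) (a2 Q h3)
  by_cases hab : ∃ A0 ⊆ A, MDa μ A0 ∧ Disjoint Z (derivedSet A0)
  · obtain ⟨A0, h1, hA0, h3⟩ := hab
    have hU : A0 ∪ B ⊆ D := union_subset (h1.trans hA) hB
    obtain ⟨h, hh⟩ := hS.thin.glueE (Eqv.rfl' (A \ A0 ∪ Z))
      (hS.eqv hA0 (hD.sup hA0 subset_union_left hU))
      (sp _ _ (sdiff_subset.trans hA) (h1.trans hA) disjoint_sdiff_left h3)
      (sp _ _ (sdiff_subset.trans hA) hU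
        (disjoint_union_right.2 ⟨disjoint_sdiff_left, hAB.mono_left sdiff_subset⟩)
        (by rw [derivedSet_union]; exact disjoint_union_right.2 ⟨h3, disjoint_sdiff_left⟩))
    rw [union_right_comm, sdiff_union_of_subset h1, union_right_comm, ← union_assoc,
      sdiff_union_of_subset h1] at hh
    obtain ⟨e1, e2⟩ := spl h A (A ∪ B) subset_rfl hA subset_union_left (union_subset hA hB) hh
    refine ⟨h ⁻¹' B, fun x hx => ?_, ?_⟩
    · rw [← mem_img h, e1]; exact Or.inr hx
    · apply h.injective.image_injective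
      rw [img_der, image_preimage_eq _ h.surjective, ← sdiff_sdiff_right_self, ← hZ, img_diff,
        img_der, e1, e2, derivedSet_union, hZ]
      ext x
      simp only [Set.mem_sdiff, mem_union]
      tauto
  · refine ⟨∅, empty_subset _, ?_⟩
    rw [der_finite finite_empty, eq_comm, ← subset_empty_iff, ← hS.lim_empty hB']
    intro p hp B0 h1 h2
    obtain ⟨h, hh⟩ := hS.thin.glueE (Eqv.rfl' (A ∪ Z)) (hS.eqv hB' h2)
      (sp _ _ hA hB hAB disjoint_sdiff_left)
      (sp _ _ hA (h1.trans hB) (hAB.mono_right h1) (disjoint_sdiff_left.mono_right (der_mono h1)))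
    rw [union_right_comm, union_right_comm A Z] at hh
    obtain ⟨e1, e2⟩ := spl h (A ∪ B) (A ∪ B0) subset_union_left (union_subset hA hB)
      subset_union_left (union_subset hA (h1.trans hB)) hh
    have hsub : h '' B \ B0 ⊆ A := fun x hx =>
      (show x ∈ A ∪ B0 from e1 ▸ image_mono subset_union_right hx.1).resolve_right hx.2
    have hfin : #(h '' B \ B0 : Set S) < μ := by
      by_contra hinf
      refine hab ⟨_, hsub, hD.mono (hsub.trans hA) hinf, ?_⟩
      refine Disjoint.mono_right (der_mono sdiff_subset) ?_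
      rw [← img_der, ← e2]
      exact (disjoint_image_iff h.injective).2 disjoint_sdiff_left
    refine hS.der_sub (hD.dsc.mono (hsub.trans hA)) hfin ?_
    obtain ⟨q, rfl⟩ := h.surjective p
    have q1 : q ∈ derivedSet (A ∪ B) := by
      rw [← mem_img h, img_der, e1]
      exact der_mono subset_union_left hp.1
    have q2 : q ∉ Z := by
      rw [← mem_img h, e2]
      exact fun h' => h'.2 hp.2
    rw [← img_der, mem_img]
    rw [derivedSet_union] at q1
    by_contra q3
    exact q2 ⟨q1.resolve_right q3, q3⟩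

lemma MCa.meet (hS : MCa S μ) {D A B : Set S} (hD : MDa μ D) (hA : A ⊆ D) (hB : B ⊆ D) :
    ∃ A1 ⊆ A, derivedSet A1 = derivedSet A ∩ derivedSet B := by
  obtain ⟨A1, h1, h2⟩ := hS.meet0 hD (sdiff_subset.trans hA) hB (disjoint_sdiff_left (t := A))
  refine ⟨A1 ∪ A ∩ B, union_subset (h1.trans sdiff_subset) inter_subset_left, ?_⟩
  rw [derivedSet_union, h2]
  refine Subset.antisymm (union_subset (inter_subset_inter_left _ (der_mono sdiff_subset))
    (subset_inter (der_mono inter_subset_left) (der_mono inter_subset_right))) fun x hx => ?_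
  by_cases h : x ∈ derivedSet (A \ B)
  · exact Or.inl ⟨h, hx.2⟩
  · exact Or.inr (der_inter hx.1 h)

/-- common isolated points of two derived sets are accumulation points of a common refinement -/
lemma MCa.meetG (hS : MCa S μ) {E F : Set S} (hE : MDa μ E) (hF : MDa μ F)
    (hne : (Iso (derivedSet E) ∩ Iso (derivedSet F)).Nonempty) :
    ∃ M ⊆ E, MDa μ M ∧ Iso (derivedSet E) ∩ Iso (derivedSet F) ⊆ derivedSet M ∧
      derivedSet M ⊆ derivedSet F := by
  have hα : ∀ m ∈ Iso (derivedSet E) ∩ Iso (derivedSet F), m ∈ derivedSet (E \ derivedSet F) :=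
    fun m hm => der_diff hm.1.1 hm.2.2
  have hβ : ∀ m ∈ Iso (derivedSet E) ∩ Iso (derivedSet F), m ∈ derivedSet (F \ derivedSet E) :=
    fun m hm => der_diff hm.2.1 hm.1.2
  obtain ⟨z, hz⟩ := hne
  obtain ⟨M, h1, h2⟩ := hS.meet
    (hS.union (hS.of_der hE sdiff_subset (hα z hz)) (hS.of_der hF sdiff_subset (hβ z hz))
      (disjoint_sdiff_left.mono_right (der_mono sdiff_subset))
      (disjoint_sdiff_left.mono_right (der_mono sdiff_subset))) subset_union_left subset_union_right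
  have h3 : Iso (derivedSet E) ∩ Iso (derivedSet F) ⊆ derivedSet M := fun m hm =>
    h2 ▸ ⟨hα m hm, hβ m hm⟩
  exact ⟨M, h1.trans sdiff_subset, hS.of_der hE (h1.trans sdiff_subset) (h3 hz), h3,
    fun m hm => der_mono sdiff_subset (h2.subset hm).2⟩

/-- the trace of a derived set on a closed crowded set is clopen -/
lemma MCa.clop_der (hS : MCa S μ) {Z D E : Set S} (hZ : IsClosed Z) (hc : Crd Z) (hD : MDa μ D)
    (hE : E ⊆ D) (hEZ : Disjoint E Z) : ClopIn (Z ∩ derivedSet E) Z := by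
  have e1 : Z \ (Z ∩ derivedSet E) = Z \ closure E := by
    ext x
    simp only [Set.mem_sdiff, mem_inter_iff, mem_cl_iff]
    exact ⟨fun h => ⟨h.1, fun h' => h'.elim (fun h'' => disjoint_left.1 hEZ h'' h.1)
      fun h'' => h.2 ⟨h.1, h''⟩⟩, fun h => ⟨h.1, fun h' => h.2 (Or.inr h'.2)⟩⟩
  have cl : IsClosed (Z \ closure E) := by
    refine isClosed_of_closure_subset fun w hw => by_contra fun hw' => ?_
    have hcl : closure (Z \ closure E) ⊆ Z := closure_minimal sdiff_subset hZ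
    have rem : Rem (Z \ closure E) ⊆ derivedSet E := fun v hv => by
      have h1 : v ∈ closure E := by_contra fun h => hv.2 ⟨hcl hv.1, h⟩
      exact (mem_cl_iff.1 h1).resolve_left fun h => disjoint_left.1 hEZ h (hcl hv.1)
    have hE' := hS.of_der hD hE (rem ⟨hw, hw'⟩)
    obtain ⟨M, m1, m2, m3⟩ := hS.shrink1 hE' w
    have hX1 : Crd (Z \ closure E) := hc.diff_closed isClosed_closure
    have sp : ∀ M ⊆ E, Sp M (Z \ closure E) := fun M hM =>
      ⟨hEZ.mono hM hcl, disjoint_sdiff_left.mono_right (closure_mono hM)⟩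
    obtain ⟨h, hh⟩ := hS.thin.glueE (hS.eqv hE' m2) (Eqv.rfl' _) (sp E subset_rfl) (sp M m1)
    have a1 : ∀ M ⊆ E, Disjoint M (derivedSet (M ∪ Z \ closure E)) := fun M hM => disjoint_left.2
      fun z hz hz' => disjoint_left.1 hE'.dsc (hM hz)
        (der_mono hM ((der_union_left (sp M hM) hz).1 hz'))
    obtain ⟨e1, e2⟩ := split_img h hh (a1 E subset_rfl) (hX1.trans (der_mono subset_union_right))
      (a1 M m1) (hX1.trans (der_mono subset_union_right))
    refine m3 ?_
    rw [← e1, ← img_der]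
    refine image_mono rem ?_
    rw [img_rem, e2]
    exact ⟨hw, hw'⟩
  refine ⟨inter_subset_left, ?_⟩
  rw [e1]
  exact sp_of_closed (hZ.inter (isClosed_derivedSet E)) cl subset_rfl subset_rfl
    (disjoint_left.2 fun x hx hx' => hx'.2 (der_sub_cl hx.2))
    (disjoint_left.2 fun x hx hx' => hx.2 (der_sub_cl hx'.2))

end Pool.Agent.Lib.MP_52f683_gt
end

-- part Pool.Agent.Lib.MP_52f683_gt.CA.A1
section

set_option autoImplicit false
set_option linter.unusedSectionVars false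

open Set Topology Filter
open scoped Cardinal

namespace Pool.Agent.Lib.MP_52f683_gt

universe u

variable {S : Type u} [TopologicalSpace S] [T1Space S] [Infinite S] {μ : Cardinal.{u}}

/-- the column argument -/
lemma MCa.final (hS : MCa S μ) {D : Set S} (hD : MDa μ D)
    (hall : ∀ A B : Set S, A ⊆ D → B ⊆ D → Disjoint A B →
      Disjoint (derivedSet A) (derivedSet B)) : False := by
  have all : ∀ {E A B : Set S}, MDa μ E → A ⊆ E → B ⊆ E → Disjoint A B →
      Disjoint (derivedSet A) (derivedSet B) := by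
    intro E A B hE hA hB hAB
    obtain ⟨g, rfl⟩ := hS.eqv hD hE
    obtain ⟨A, hA', rfl⟩ := subset_image_iff.1 hA
    obtain ⟨B, hB', rfl⟩ := subset_image_iff.1 hB
    rw [← img_der, ← img_der, img_disj]
    exact hall A B hA' hB' ((img_disj g).1 hAB)
  have hinf : Infinite D := (hS.infinite hD).to_subtype
  obtain ⟨φ⟩ : Nonempty (D × D ≃ D) := Cardinal.eq.1 (by
    simp [Cardinal.mul_eq_self (Cardinal.aleph0_le_mk D)])
  obtain ⟨c0, c1, hc⟩ := exists_pair_ne D
  let u : D → D := fun i => φ (i, c0)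
  let v : D → D := fun i => φ (i, c1)
  have hu : Function.Injective u := fun i j e => (Prod.ext_iff.1 (φ.injective e)).1
  have hv : Function.Injective v := fun i j e => (Prod.ext_iff.1 (φ.injective e)).1
  have huv : ∀ i j, u i ≠ v j := fun i j e => hc (Prod.ext_iff.1 (φ.injective e)).2
  let a : D → Set S := fun i => range fun j => (φ (i, j) : S)
  have haD : ∀ n, a n ⊆ D := by rintro n _ ⟨m, rfl⟩; exact (φ _).2
  have hai : ∀ n, MDa μ (a n) := fun n => ⟨hD.dsc.mono (haD n), by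
    rw [Cardinal.mk_range_eq _ fun m m' e => (Prod.ext_iff.1 (φ.injective (Subtype.ext e))).2,
      hD.card]⟩
  have had : ∀ {m n : D} {z : S}, z ∈ a m → z ∈ a n → m = n := by
    rintro m n _ ⟨i, rfl⟩ ⟨j, e⟩
    exact (Prod.ext_iff.1 (φ.injective (Subtype.ext e))).1.symm
  have pos : ∀ {T : Set S}, T.Subsingleton → #T < μ := fun hT =>
    lt_of_lt_of_le (Cardinal.lt_aleph0_iff_set_finite.2 hT.finite) hS.inf
  have aux0 : ∀ {B C : Set S}, C ⊆ D → #(C ∩ B : Set S) < μ → derivedSet C ⊆ derivedSet (D \ B) := by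
    intro B C hC hf
    have e : C \ (D \ B) = C ∩ B := by
      ext z
      exact ⟨fun hz => ⟨hz.1, by_contra fun h => hz.2 ⟨hC hz.1, h⟩⟩,
        fun hz => ⟨hz.1, fun h => h.2 hz.2⟩⟩
    exact hS.der_sub (hD.dsc.mono (sdiff_subset.trans hC)) (by rwa [e])
  have dj : ∀ {B C : Set S}, B ⊆ D → C ⊆ D → #(B ∩ C : Set S) < μ →
      Disjoint (derivedSet B) (derivedSet C) := fun hB hC hf =>
    (all hD hB sdiff_subset disjoint_sdiff_right).mono_right (aux0 hC (by rwa [inter_comm]))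
  let Y0 : Set S := ⋃ B ∈ {B | B ⊆ D ∧ ∀ n, #(B ∩ a n : Set S) < μ}, derivedSet B
  let X : (D → D) → Option D → Set S := fun σ i => i.elim Y0 fun n => derivedSet (a (σ n))
  have st : ∀ σ, ∀ z ∈ ⋃ i, X σ i, ∃ B ⊆ D, z ∈ derivedSet B ∧ derivedSet B ⊆ ⋃ i, X σ i := by
    intro σ z hz
    obtain ⟨_ | n, hi⟩ := mem_iUnion.1 hz
    · obtain ⟨B, hB, hz⟩ := mem_iUnion₂.1 hi
      exact ⟨B, hB.1, hz, (subset_biUnion_of_mem hB).trans (subset_iUnion (X σ) none)⟩
    · exact ⟨a (σ n), haD _, hi, subset_iUnion (X σ) (some n)⟩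
  have sep : ∀ σ, Function.Injective σ →
      ∀ i, Disjoint (X σ i) (closure (⋃ j ∈ ({i}ᶜ : Set (Option D)), X σ j)) := by
    intro σ hσ i
    refine disjoint_left.2 fun z hz hz' => ?_
    obtain ⟨B, hB, hzB, hB'⟩ : ∃ B ⊆ D, z ∈ derivedSet B ∧
        ∀ j ≠ i, X σ j ⊆ derivedSet (D \ B) := by
      rcases i with _ | n
      · obtain ⟨B, hB, hz⟩ := mem_iUnion₂.1 hz
        refine ⟨B, hB.1, hz, ?_⟩
        rintro (_ | m) hj
        · exact absurd rfl hj
        · exact aux0 (haD _) (inter_comm _ _ ▸ hB.2 _)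
      · refine ⟨a (σ n), haD _, hz, ?_⟩
        rintro (_ | m) hj
        · exact iUnion₂_subset fun B hB => aux0 hB.1 (hB.2 _)
        · exact aux0 (haD _) (pos fun w hw => absurd (by rw [hσ (had hw.1 hw.2)]) hj)
    exact disjoint_left.1 (all hD hB sdiff_subset disjoint_sdiff_right) hzB
      (closure_minimal (iUnion₂_subset hB') (isClosed_derivedSet _) hz')
  obtain ⟨h, hh⟩ := hS.thin.glueF (X id) (X u) (by
      rintro (_ | n)
      · exact Eqv.rfl' _
      · obtain ⟨g, hg⟩ := hS.eqv (hai n) (hai (u n))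
        exact ⟨g, by simp only [X, Option.elim, id]; rw [img_der, hg]⟩)
    (sep id Function.injective_id) (sep _ hu)
  set Y := ⋃ i, X u i with hYdef
  have hE := hD.image h
  have key : Y ⊆ derivedSet (D ∩ h '' D) := by
    intro z hz
    obtain ⟨B, hB, hzB, hBY⟩ := st _ z hz
    obtain ⟨C, hC, hzC, hCY⟩ : ∃ C ⊆ h '' D, z ∈ derivedSet C ∧ derivedSet C ⊆ Y := by
      rw [← hh] at hz
      obtain ⟨w, hw, rfl⟩ := hz
      obtain ⟨C, h1, h2, h3⟩ := st _ w hw
      exact ⟨h '' C, image_mono h1, by rwa [← img_der, mem_img],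
        by rw [← img_der, ← hh]; exact image_mono h3⟩
    have hYD : Y ⊆ derivedSet D := fun w hw => by
      obtain ⟨B, h1, h2, -⟩ := st _ w hw
      exact der_mono h1 h2
    have hYE : Y ⊆ derivedSet (h '' D) := by
      rw [← hh, ← img_der]
      refine image_mono fun w hw => ?_
      obtain ⟨B, h1, h2, -⟩ := st _ w hw
      exact der_mono h1 h2
    have aux : ∀ {D E B C : Set S}, MDa μ D → MDa μ E → B ⊆ D → C ⊆ E → z ∈ derivedSet B →
        z ∈ derivedSet C → derivedSet B ⊆ derivedSet E → z ∉ derivedSet (D ∩ E) →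
        z ∈ derivedSet (C \ closure D) := by
      intro D E B C hD hE hB hC hzB hzC hBE hn
      refine der_mono ?_
        (der_diff (der_diff hzC hn) (B := derivedSet (D \ B)) fun h' =>
          disjoint_left.1 (all hD hB sdiff_subset disjoint_sdiff_right) hzB (der_der h'))
      intro w hw
      refine ⟨hw.1.1, fun h' => ?_⟩
      rcases mem_cl_iff.1 h' with h' | h'
      · exact hw.1.2 ⟨h', hC hw.1.1⟩
      · exact hw.2 (der_diff h' fun h'' => disjoint_left.1 hE.dsc (hC hw.1.1) (hBE h''))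
    by_contra hn
    have z1 := aux hD hE hB hC hzB hzC (hBY.trans hYE) hn
    have z2 := aux hE hD hC hB hzC hzB (hCY.trans hYD) (by rwa [inter_comm])
    have sp : Sp (C \ closure D) (B \ closure (h '' D)) :=
      ⟨disjoint_sdiff_left.mono_right (closure_mono (sdiff_subset.trans hB)),
        disjoint_sdiff_left.mono_right (closure_mono (sdiff_subset.trans hC))⟩
    exact disjoint_left.1 (all
      (hS.union_sp (hS.of_der hE (sdiff_subset.trans hC) z1)
        (hS.of_der hD (sdiff_subset.trans hB) z2) sp) subset_union_left subset_union_right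
      (sp.1.mono_right subset_closure)) z1 z2
  have mad : ∀ B ⊆ D, MDa μ B → ∃ z ∈ derivedSet B, z ∈ ⋃ i, X id i := by
    intro B hB hB'
    by_cases hf : ∀ n, #(B ∩ a n : Set S) < μ
    · obtain ⟨z, hz⟩ := hS.big B hB'
      exact ⟨z, hz, mem_iUnion.2 ⟨none, mem_biUnion (x := B) ⟨hB, hf⟩ hz⟩⟩
    · obtain ⟨n, hn⟩ := not_forall.1 hf
      obtain ⟨z, hz⟩ := hS.big _ (hD.mono (inter_subset_left.trans hB) hn)
      exact ⟨z, der_mono inter_subset_left hz,
        mem_iUnion.2 ⟨some n, der_mono inter_subset_right hz⟩⟩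
  have fin : ∀ n, #(a (v n) ∩ h '' D : Set S) < μ := by
    intro n
    by_contra hinf
    obtain ⟨B, hB, hB'⟩ := subset_image_iff.1 (inter_subset_right (s := a (v n)) (t := h '' D))
    obtain ⟨z, hz, hz'⟩ := mad B hB (hD.mono hB (by
      rwa [← hB', Cardinal.mk_image_eq h.injective] at hinf))
    rw [← mem_img h, img_der, hB'] at hz
    rw [← mem_img h, hh] at hz'
    have hz2 := der_mono inter_subset_left hz
    obtain ⟨_ | m, hi⟩ := mem_iUnion.1 hz'
    · obtain ⟨C, hC, hi⟩ := mem_iUnion₂.1 hi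
      exact disjoint_left.1 (dj hC.1 (haD _) (hC.2 _)) hi hz2
    · exact disjoint_left.1 (dj (haD _) (haD _)
        (pos fun w hw => absurd (had hw.1 hw.2) (huv m n))) hi hz2
  have hne : ∀ n, (a (v n) \ h '' D).Nonempty := fun n => by
    by_contra hn
    rw [not_nonempty_iff_eq_empty, sdiff_eq_empty] at hn
    have := fin n
    rw [inter_eq_left.2 hn, (hai _).card] at this
    exact lt_irrefl _ this
  choose b hb using hne
  have hbD : range b ⊆ D := by rintro _ ⟨n, rfl⟩; exact haD _ (hb n).1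
  obtain ⟨z, hz⟩ := hS.big (range b) ⟨hD.dsc.mono hbD, by
    rw [Cardinal.mk_range_eq b fun m n e => hv (had (hb m).1 (e ▸ (hb n).1)), hD.card]⟩
  refine disjoint_left.1 (all hD hbD inter_subset_left (disjoint_left.2 ?_)) hz (key ?_)
  · rintro _ ⟨n, rfl⟩ hn
    exact (hb n).2 hn.2
  · refine mem_iUnion.2 ⟨none, mem_biUnion (x := range b) ⟨hbD, fun n => pos ?_⟩ hz⟩
    rintro _ ⟨⟨m, rfl⟩, hm⟩ _ ⟨⟨m', rfl⟩, hm'⟩
    rw [hv ((had (hb m).1 hm).trans (had (hb m').1 hm').symm)]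

end Pool.Agent.Lib.MP_52f683_gt
end

-- part Pool.Agent.Lib.MP_52f683_gt.CA.A2
section

set_option autoImplicit false
set_option linter.unusedSectionVars false

open Set Topology Filter
open scoped Cardinal

namespace Pool.Agent.Lib.MP_52f683_gt

universe u

variable {S : Type u} [TopologicalSpace S] [T1Space S] [Infinite S] {μ : Cardinal.{u}}

lemma Thin.cl_ne_disc_ca (hS : Thin S) {D : Set S} (hD : Disc D) (hne : D.Nonempty) :
    closure D ≠ univ := by
  intro h
  obtain ⟨d, hd⟩ := hne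
  refine hS.open_inf isClosed_closure.isOpen_compl ⟨d, not_mem_cl_diff_ca (disjoint_left.1 hD hd)⟩
    ((finite_singleton d).subset ?_)
  intro y hy
  by_contra hyd
  have : y ∈ closure ((D \ {d}) ∪ {d}) := closure_mono (by simp) (h ▸ mem_univ y)
  rw [closure_union, closure_singleton] at this
  exact this.elim hy hyd

lemma halves_ca {F : Set S} (hF : F.Infinite) :
    ∃ F1 ⊆ F, ∃ F2 ⊆ F, Disjoint F1 F2 ∧ #F = #F1 ∧ #F = #F2 := by
  have := hF.to_subtype
  obtain ⟨φ⟩ : Nonempty (F ⊕ F ≃ F) := Cardinal.eq.1 (by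
    simp [Cardinal.add_eq_self (Cardinal.aleph0_le_mk F)])
  refine ⟨range fun x => (φ (Sum.inl x) : S), ?_, range fun x => (φ (Sum.inr x) : S), ?_, ?_, ?_, ?_⟩
  · rintro _ ⟨x, rfl⟩; exact (φ _).2
  · rintro _ ⟨x, rfl⟩; exact (φ _).2
  · refine disjoint_left.2 ?_
    rintro _ ⟨x, rfl⟩ ⟨y, e⟩
    simpa using φ.injective (Subtype.ext e)
  · exact (Cardinal.mk_range_eq _ fun x y e => by simpa using φ.injective (Subtype.ext e)).symm
  · exact (Cardinal.mk_range_eq _ fun x y e => by simpa using φ.injective (Subtype.ext e)).symm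

section

variable (hS : MCa S μ) (H : ∀ E : Set S, MDa μ E → ∀ X ⊆ derivedSet E, Crd X → X = ∅)
include hS H

lemma MCa.sc_cl {E W : Set S} (hE : MDa μ E) (hW : W ⊆ derivedSet E) : W ⊆ closure (Iso W) := by
  rw [← sdiff_eq_empty]
  refine H E hE _ (sdiff_subset.trans hW) fun x hx => der_diff_cl ?_ hx.2
  exact by_contra fun h => hx.2 (subset_closure ⟨hx.1, h⟩)

lemma MCa.md_iso {E W : Set S} (hE : MDa μ E) (hW : W ⊆ derivedSet E)
    (hne : (derivedSet W).Nonempty) : ∃ P ⊆ Iso W, MDa μ P := by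
  refine hS.exists_md (disc_iso W) (hne.mono ?_)
  rw [← derivedSet_closure (Iso W)]
  exact der_mono (hS.sc_cl H hE hW)

lemma MCa.b2 {A B : Set S} (hA : MDa μ A) (hB : MDa μ B) :
    (derivedSet A ∩ derivedSet B).Nonempty := by
  by_contra hn
  have hd : ∀ z ∈ derivedSet B, z ∉ derivedSet A := fun z h1 h2 => hn ⟨z, h2, h1⟩
  obtain ⟨z, hz⟩ : (Iso (derivedSet B)).Nonempty :=
    ((hS.big B hB).mono (hS.sc_cl H hB subset_rfl)).of_closure
  have hcl := hS.sc_cl H hA subset_rfl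
  have hF : (Iso (derivedSet A)).Infinite := fun hf =>
    hS.der_inf hA (hf.subset (by rwa [hf.isClosed.closure_eq] at hcl))
  have hFA : closure (Iso (derivedSet A)) ⊆ derivedSet A :=
    closure_minimal sdiff_subset (isClosed_derivedSet A)
  have hB1 : Disc (insert z (Iso (derivedSet A))) := by
    unfold Disc
    rw [insert_eq, derivedSet_union, der_finite (finite_singleton z), empty_union]
    exact disjoint_union_left.2
      ⟨disjoint_singleton_left.2 fun h => hd z hz.1 (hFA (der_sub_cl h)), disc_iso _⟩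
  obtain ⟨k, hk⟩ := hS.thin.eqv_disc_ca (disc_iso (derivedSet A)) hB1 (by
    have := hF.to_subtype
    rw [Cardinal.mk_insert fun h => hd z hz.1 h.1,
      Cardinal.add_one_eq (Cardinal.aleph0_le_mk _)])
  obtain ⟨M, m1, m2, -, m4⟩ := hS.meetG (hA.image k) hB
    ⟨z, by rw [← img_der, ← img_iso, hk]; exact mem_insert _ _, hz⟩
  refine hS.der_inf m2 ((finite_singleton z).subset fun w hw => ?_)
  have h1 : w ∈ closure (insert z (Iso (derivedSet A))) := by
    rw [← hk, ← img_cl]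
    have := der_mono m1 hw
    rw [← img_der] at this
    exact image_mono hcl this
  rw [insert_eq, closure_union, closure_singleton] at h1
  exact h1.resolve_right fun h => hd w (m4 hw) (hFA h)

lemma MCa.der2 {E : Set S} (hE : MDa μ E) : ∃ P ⊆ derivedSet E, MDa μ P := by
  by_cases h : (derivedSet (derivedSet E)).Nonempty
  · obtain ⟨P, h1, h2⟩ := hS.md_iso H hE subset_rfl h
    exact ⟨P, h1.trans sdiff_subset, h2⟩
  · have hd : Disc (derivedSet E) := by
      unfold Disc; rw [not_nonempty_iff_eq_empty.1 h]; simp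
    obtain ⟨F1, a1, F2, a2, a3, a4, a5⟩ := halves_ca (hS.der_inf hE)
    obtain ⟨k1, e1⟩ := hS.thin.eqv_disc_ca hd (hd.mono a1) a4
    obtain ⟨k2, e2⟩ := hS.thin.eqv_disc_ca hd (hd.mono a2) a5
    obtain ⟨x, h1, h2⟩ := hS.b2 H (hE.image k1) (hE.image k2)
    rw [← img_der, e1] at h1
    rw [← img_der, e2] at h2
    exact (disjoint_left.1 a3 h1 h2).elim

lemma MCa.sep3 {x y : S} (hxy : x ≠ y) :
    ∃ E, MDa μ E ∧ x ∈ derivedSet (derivedSet (derivedSet E)) ∧ y ∉ closure E := by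
  obtain ⟨D, hD⟩ := hS.ex
  obtain ⟨P, p1, p2⟩ := hS.der2 H hD
  obtain ⟨Q, q1, q2⟩ := hS.der2 H p2
  have h3 : (derivedSet (derivedSet (derivedSet D))).Infinite :=
    (hS.der_inf q2).mono (der_mono (q1.trans (der_mono p1)))
  have hne := hS.thin.cl_ne_disc_ca hD.dsc (hS.infinite hD).nonempty
  obtain ⟨p, hp⟩ := nonempty_compl.2 hne
  obtain ⟨q, hq⟩ := h3.nonempty
  obtain ⟨R1, a1, a2⟩ := hS.thin.exists_cd_closed (isClosed_derivedSet _) h3
  obtain ⟨R2, b1, b2⟩ := hS.thin.exists_cd_compl isClosed_closure hne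
  refine hS.thin.all_pairs
    (fun x y => ∃ E, MDa μ E ∧ x ∈ derivedSet (derivedSet (derivedSet E)) ∧ y ∉ closure E) ?_
    (hS.thin.cd_insert_ca a2 p) (hS.thin.cd_insert_ca b2 q) (mem_insert _ _) (mem_insert _ _) ?_ ?_ hxy
  · rintro h x y ⟨E, e1, e2, e3⟩
    exact ⟨h '' E, e1.image h, by rwa [← img_der, ← img_der, ← img_der, mem_img],
      by rwa [← img_cl, mem_img]⟩
  · exact fun z hz hne => ⟨D, hD, a1 (hz.resolve_left hne), hp⟩
  · exact fun z hz hne => ⟨D, hD, hq, b1 (hz.resolve_left hne)⟩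

/-- the scattered case is impossible -/
lemma MCa.not_scattered : False := by
  obtain ⟨x, y, hxy⟩ := exists_pair_ne S
  obtain ⟨E1, h1, hx1, hy1⟩ := hS.sep3 H hxy
  obtain ⟨E2, h2, hy2, hx2⟩ := hS.sep3 H hxy.symm
  have loc : ∀ {E F : Set S} {z : S}, z ∈ derivedSet (derivedSet (derivedSet E)) →
      z ∉ closure F → z ∈ derivedSet (derivedSet (derivedSet (E \ closure F)) \ closure F) := by
    intro E F z hz hz'
    refine der_mono ?_ (der_diff_cl hz hz')
    intro a ha
    exact ⟨der_mono (fun b hb => der_diff_cl hb.1 hb.2) (der_diff_cl ha.1 ha.2), ha.2⟩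
  have hx3 := loc hx1 hx2
  have hy3 := loc hy2 hy1
  set A := E1 \ closure E2 with hAdef
  set C := E2 \ closure E1 with hCdef
  have hAc : closure A ⊆ closure E1 := closure_mono sdiff_subset
  have hCc : closure C ⊆ closure E2 := closure_mono sdiff_subset
  have hxA : x ∈ derivedSet A := der_der (der_der (der_mono sdiff_subset hx3))
  have hyC : y ∈ derivedSet C := der_der (der_der (der_mono sdiff_subset hy3))
  have hA : MDa μ A := hS.of_der h1 sdiff_subset hxA
  have hC : MDa μ C := hS.of_der h2 sdiff_subset hyC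
  obtain ⟨R, hR0, hR⟩ := hS.md_iso H hC (W := derivedSet (derivedSet C) \ closure E1)
    (sdiff_subset.trans der_der) ⟨y, hy3⟩
  have hR1 : R ⊆ derivedSet (derivedSet C) \ closure E1 := hR0.trans sdiff_subset
  obtain ⟨P, hP0, hP⟩ := hS.md_iso H hA (W := derivedSet A \ closure E2) sdiff_subset
    ⟨x, der_mono (sdiff_subset_sdiff_left der_der) hx3⟩
  have hP1 : P ⊆ (derivedSet A \ derivedSet (derivedSet A)) \ closure E2 := fun p hp =>
    ⟨⟨(hP0 hp).1.1, fun h => (hP0 hp).2 (der_diff_cl h (hP0 hp).1.2)⟩, (hP0 hp).1.2⟩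
  have hPA : P ⊆ derivedSet A := fun p hp => (hP1 hp).1.1
  obtain ⟨z, hz⟩ := hS.big P hP
  obtain ⟨R1, r1, hR1', r3⟩ := hS.shrink1 hR z
  have hRC : R1 ⊆ derivedSet C := fun r hr => der_der (hR1 (r1 hr)).1
  have spPR : Sp P R1 :=
    ⟨disjoint_left.2 fun p hp hp' => (hP1 hp).2
      (closure_minimal (hRC.trans (der_sub_cl.trans hCc)) isClosed_closure hp'),
     disjoint_left.2 fun p hp hp' => (hR1 (r1 hp)).2
      (closure_minimal (hPA.trans (der_sub_cl.trans hAc)) isClosed_closure hp')⟩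
  obtain ⟨M, hM1, hM2⟩ := hS.meet (hS.union_sp hP hR1' spPR) subset_union_left subset_union_right
  obtain ⟨z', hz'⟩ := hS.b2 H hP hR1'
  have hM : MDa μ M := hS.of_der hP hM1 (x := z') (hM2 ▸ hz')
  obtain ⟨h, hh⟩ := hS.eqv hP hM
  have hA2 := hA.image h
  have hM3 : M ⊆ Iso (derivedSet (h '' A)) ∩ Iso (derivedSet A) := by
    intro m hm
    refine ⟨?_, (hP1 (hM1 hm)).1⟩
    rw [← hh] at hm
    obtain ⟨p, hp, rfl⟩ := hm
    rw [← img_der, ← img_iso, mem_img]
    exact (hP1 hp).1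
  obtain ⟨B0, hB1, -, hB2, hB3⟩ := hS.meetG hA2 hA ((hS.infinite hM).nonempty.mono hM3)
  set B := B0 \ closure E2 with hBdef
  have hMB : M ⊆ derivedSet B := fun m hm => der_diff_cl (hB2 (hM3 hm)) (hP1 (hM1 hm)).2
  have hBA : derivedSet B ⊆ derivedSet A := (der_mono sdiff_subset).trans hB3
  have hBh : B ⊆ h '' A := fun b hb => hB1 hb.1
  obtain ⟨A3, hA3, hA3'⟩ := subset_image_iff.1 hBh
  have hPA3 : P ⊆ derivedSet A3 := fun p hp => by
    rw [← mem_img h, img_der, hA3']
    exact hMB (hh ▸ mem_image_of_mem _ hp)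
  have hZ : closure (C ∪ R1) ⊆ closure E2 :=
    closure_minimal (union_subset (subset_closure.trans hCc) (hRC.trans (der_sub_cl.trans hCc)))
      isClosed_closure
  have hZ' : Disjoint (C ∪ R1) (closure E1) :=
    disjoint_union_left.2 ⟨disjoint_sdiff_left, disjoint_left.2 fun r hr => (hR1 (r1 hr)).2⟩
  have key : ∀ B M : Set S, Disjoint B (derivedSet B) → Disjoint B (closure E2) →
      derivedSet B ⊆ derivedSet A → M ⊆ P → M ⊆ derivedSet B →
      Sp (B ∪ M) (C ∪ R1) ∧ Disjoint (B ∪ C) (derivedSet ((B ∪ C) ∪ (M ∪ R1))) ∧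
        M ∪ R1 ⊆ derivedSet (B ∪ C) ∧ Disjoint M (derivedSet (derivedSet (B ∪ C))) ∧
        R1 ⊆ derivedSet (derivedSet (B ∪ C)) := by
    intro B M k1 k2 k3 k4 k5
    have k6 : M ∪ R1 ⊆ derivedSet (B ∪ C) := by
      rw [derivedSet_union]; exact union_subset_union k5 hRC
    have k7 : Disjoint (C ∪ R1) (derivedSet B) :=
      hZ'.mono_right (k3.trans (der_sub_cl.trans hAc))
    refine ⟨⟨Disjoint.mono_right hZ (disjoint_union_left.2
      ⟨k2, disjoint_left.2 fun m hm => (hP1 (k4 hm)).2⟩), ?_⟩, ?_, k6, ?_, ?_⟩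
    · rw [closure_eq_self_union_derivedSet]
      refine disjoint_union_right.2 ⟨disjoint_union_right.2 ⟨?_, k7.mono_right k5⟩,
        k7.mono_right (der_union_sub k5)⟩
      exact (k2.mono_right (subset_closure.trans hZ)).symm
    · refine Disjoint.mono_right (der_union_sub k6) ?_
      rw [derivedSet_union]
      exact disjoint_union_left.2 ⟨disjoint_union_right.2
        ⟨k1, k2.mono_right (der_sub_cl.trans hCc)⟩,
        disjoint_union_right.2 ⟨k7.mono_left subset_union_left, hC.dsc⟩⟩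
    · rw [derivedSet_union, derivedSet_union]
      exact disjoint_union_right.2
        ⟨disjoint_left.2 fun m hm hm' => (hP1 (k4 hm)).1.2 (der_mono k3 hm'),
         disjoint_left.2 fun m hm hm' => (hP1 (k4 hm)).2 (hCc (der_sub_cl (der_der hm')))⟩
    · exact fun r hr => der_mono (der_mono subset_union_right) (hR1 (r1 hr)).1
  obtain ⟨s1, s2, s3, s4, s5⟩ := key A3 P (hA.dsc.mono hA3)
    (disjoint_sdiff_left.mono_left hA3) (der_mono hA3) subset_rfl hPA3
  obtain ⟨t1, t2, t3, t4, t5⟩ := key B M (hA2.dsc.mono hBh) disjoint_sdiff_left hBA hM1 hMB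
  obtain ⟨k, hk⟩ := hS.thin.glueE ⟨h, by rw [image_union, hA3', hh]⟩ (Eqv.rfl' (C ∪ R1)) s1 t1
  rw [union_union_union_comm, union_union_union_comm B] at hk
  obtain ⟨e1, e2⟩ := split_img k hk s2 (s3.trans (der_mono subset_union_left)) t2
    (t3.trans (der_mono subset_union_left))
  have e3 : ∀ v, k v ∈ derivedSet (derivedSet (B ∪ C)) ↔ v ∈ derivedSet (derivedSet (A3 ∪ C)) :=
    fun v => by rw [← e1, ← img_der, ← img_der, mem_img]
  have e4 : k '' P ⊆ M := by
    rintro _ ⟨p, hp, rfl⟩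
    exact (show k p ∈ M ∪ R1 from e2 ▸ mem_image_of_mem _ (Or.inl hp)).resolve_right
      fun h' => disjoint_left.1 s4 hp ((e3 p).1 (t5 h'))
  have e5 : R1 ⊆ k '' R1 := by
    intro r hr
    obtain ⟨v, hv, rfl⟩ : r ∈ k '' (P ∪ R1) := e2 ▸ Or.inr hr
    exact mem_image_of_mem _ (hv.resolve_left fun h' => disjoint_left.1 s4 h' ((e3 v).1 (t5 hr)))
  refine r3 ?_
  rw [← mem_img k, img_der] at hz ⊢
  exact der_mono e5 (hM2.subset (der_mono e4 hz)).2

end

end Pool.Agent.Lib.MP_52f683_gt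
end
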