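import Pool.Agent.Lib.MP_52f683_gt.CA.A2

import Pool.Agent.Lib.MP_52f683_gt.F.M1

set_option autoImplicit false
set_option linter.unusedSectionVars false

open Set Topology Filter
open scoped Cardinal

namespace Pool.Agent.Lib.MP_52f683_gt

universe u

variable {S : Type u} [TopologicalSpace S]

/-- the largest crowded subset -/
def KernA (A : Set S) : Set S := ⋃ X ∈ {X : Set S | X ⊆ A ∧ Crd X}, X

lemma kern_sub_ca (A : Set S) : KernA A ⊆ A := iUnion₂_subset fun _ h => h.1

lemma kern_crd_ca (A : Set S) : Crd (KernA A) := crd_iUnion fun _ => crd_iUnion fun h => h.2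

lemma sub_kern_ca {A X : Set S} (h : X ⊆ A) (h' : Crd X) : X ⊆ KernA A :=
  subset_biUnion_of_mem (u := fun X => X) (show X ∈ {X : Set S | X ⊆ A ∧ Crd X} from ⟨h, h'⟩)

lemma img_kern_ca (g : S ≃ₜ S) (A : Set S) : g '' KernA A = KernA (g '' A) := by
  have key : ∀ (g : S ≃ₜ S) (A : Set S), g '' KernA A ⊆ KernA (g '' A) := fun g A =>
    sub_kern_ca (image_mono (kern_sub_ca A)) ((kern_crd_ca A).image g)
  refine (key g A).antisymm ?_
  have := key g.symm (g '' A)
  rw [img_symm_img] at this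
  exact (img_img_symm g _).ge.trans (image_mono this)

variable [T1Space S] [Infinite S] {μ : Cardinal.{u}}

lemma kern_closed_ca {A : Set S} (h : IsClosed A) : IsClosed (KernA A) :=
  isClosed_of_closure_subset (sub_kern_ca (closure_minimal (kern_sub_ca A) h) (kern_crd_ca A).closure)

/-- the derived set of a discrete part of a set is nowhere dense in it -/
lemma nwd_der_ca {K E : Set S} (hE : Disc E) (h : E ⊆ K) : Nwd (derivedSet E) K := by
  intro z hz
  by_contra hn
  have hz' : z ∈ derivedSet E := by_contra fun h' => hn (subset_closure ⟨hz, h'⟩)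
  obtain ⟨e, e1, e2⟩ := mem_closure_iff.1 (der_sub_cl hz') _ isClosed_closure.isOpen_compl hn
  exact e1 (subset_closure ⟨h e2, disjoint_left.1 hE e2⟩)

/-- the crowded case is impossible -/
lemma MCa.not_kernel (hS : MCa S μ) {D : Set S} (hD : MDa μ D)
    (hne : (KernA (derivedSet D)).Nonempty) : False := by
  set K := KernA (derivedSet D) with hKdef
  have kc : IsClosed K := kern_closed_ca (isClosed_derivedSet D)
  have kr : Crd K := kern_crd_ca _
  have ks : ∀ g : S ≃ₜ S, g '' K ⊆ derivedSet (g '' D) := fun g => by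
    rw [← img_der]; exact image_mono (kern_sub_ca _)
  have km : ∀ (g : S ≃ₜ S) (X : Set S), X ⊆ derivedSet (g '' D) → Crd X → X ⊆ g '' K :=
    fun g X h1 h2 => by rw [hKdef, img_kern_ca, img_der]; exact sub_kern_ca h1 h2
  have kd : ∀ {A : Set S}, A ⊆ D → ClopIn (K ∩ derivedSet A) K := fun hA =>
    hS.clop_der kc kr hD hA (Disjoint.mono hA (kern_sub_ca _) hD.dsc)
  by_cases H : ∀ N, ClopIn N K → N.Nonempty → ∃ E ⊆ N, MDa μ E
  · have emb : ∀ V, ClA K V → V.Nonempty → EmbA K V := by
      rintro V ⟨g, hg⟩ hV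
      have h1 : ClopIn (g.symm '' V) K := by simpa [img_symm_img] using hg.image g.symm
      obtain ⟨E, e1, e2⟩ := H _ h1 (hV.image _)
      obtain ⟨b, rfl⟩ := hS.eqv hD e2
      exact EmbA.trans ⟨b, (ks b).trans (der_sub_closed (h1.isClosed_ca kc) e1)⟩ (img_emb_ca _ _)
    have cw : CWa K := by
      refine ⟨hS.thin, kc, kr, hne, ?_, fun g z hz => ?_⟩
      · obtain ⟨x, hx⟩ := hne
        obtain ⟨A, a1, a2, a3⟩ := hS.shrink1 hD x
        obtain ⟨b, hb⟩ := emb _ (cl_of_clop_ca (kd a1).compl) ⟨x, hx, fun h => a3 h.2⟩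
        obtain ⟨a, rfl⟩ := hS.eqv hD a2
        refine ⟨b.trans a.symm, ?_⟩
        rw [img_trans, ← img_disj a, img_img_symm]
        exact disjoint_left.2 fun y hy hy' => (hb hy').2 ⟨(hb hy').1, ks a hy⟩
      · have hE := hD.image g
        by_cases hz' : z ∈ derivedSet (g '' D \ K)
        · have c1 := hS.clop_der kc kr hE (sdiff_subset (t := K)) disjoint_sdiff_left
          exact ⟨K ∩ derivedSet (g '' D \ K), ⟨hz.1, hz'⟩, subset_inter inter_subset_left
            (km g _ (inter_subset_right.trans (der_mono sdiff_subset)) (kr.clop c1)), Or.inl c1⟩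
        · have c1 := (hS.clop_der (g.isClosed_image.2 kc) (kr.image g) hE (sdiff_subset (t := K))
            (Disjoint.mono sdiff_subset (ks g) hE.dsc)).compl
          have s1 : g '' K \ (g '' K ∩ derivedSet (g '' D \ K)) ⊆ derivedSet (g '' D ∩ K) :=
            fun y hy => der_inter (ks g hy.1) fun h => hy.2 ⟨hy.1, h⟩
          exact ⟨g '' K \ (g '' K ∩ derivedSet (g '' D \ K)), ⟨hz.2, fun h => hz' h.2⟩,
            subset_inter (s1.trans (der_sub_closed kc inter_subset_right)) sdiff_subset,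
            Or.inr ⟨c1, (nwd_der_ca (hE.dsc.mono inter_subset_left) inter_subset_right).mono s1⟩⟩
    obtain ⟨ι, W, w1, w2, w3, w4, w5, w6⟩ := cw.min
    have tau := tauSum_of_clop w1 w3
    obtain ⟨V, v1, v2, v3⟩ := cw.host w1 w2 w3 w5 fun y hy => by
      rw [isClosed_iff_derivedSet_subset]
      intro z hz
      obtain ⟨Y, y1, y2⟩ := hS.exists_md (tau.disc_ca hy) ⟨z, hz⟩
      refine (hS.final y2 fun A B hA hB hAB => ?_).elim
      have sub : ∀ {A : Set S}, A ⊆ Y → derivedSet A ⊆ closure (⋃ i : {i // y i ∈ A}, W i.1) :=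
        fun hA => der_sub_cl.trans (closure_mono fun v hv => by
          obtain ⟨i, rfl⟩ := y1 (hA hv)
          exact mem_iUnion.2 ⟨⟨i, hv⟩, hy i⟩)
      refine (cw.ed _ _ (opIn_iUnion_ca fun i => (w1 _).opIn_ca) (opIn_iUnion_ca fun i => (w1 _).opIn_ca)
        ?_).mono (sub hA) (sub hB)
      exact disjoint_iUnion_left.2 fun i => disjoint_iUnion_right.2 fun j => w3 fun e =>
        disjoint_left.1 hAB i.2 (e ▸ j.2)
    exact w4 (hS.thin.host_ca tau v2 (fun i => (w1 i).isClosed_ca kc) v3 fun i =>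
      (emb_of_sub_ca (w1 i).1).trans (emb _ (v1 i).2 (v1 i).1))
  · push Not at H
    obtain ⟨c, c1, ⟨x, hx⟩, c3⟩ := H
    obtain ⟨A, a1, a2, a3⟩ := hS.shrink1 hD x
    have d1 := c1.diff (kd a1)
    set d := c \ (K ∩ derivedSet A) with hd
    have dc := d1.isClosed_ca kc
    have dr := kr.clop d1
    have sm : ∀ E ⊆ d, Disc E → derivedSet E = ∅ := fun E e1 e2 => by
      by_contra hn
      obtain ⟨B, b1, b2⟩ := hS.exists_md e2 (nonempty_iff_ne_empty.2 hn)
      exact c3 B (b1.trans (e1.trans sdiff_subset)) b2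
    refine HWa.false (X := d) ⟨hS.thin, dc, dr, ⟨x, hx, fun h => a3 h.2⟩, ?_, fun g => ?_,
      fun E e1 e2 => ?_⟩
    · obtain ⟨a, rfl⟩ := hS.eqv hD a2
      exact ⟨a, disjoint_left.2 fun y hy hy' => hy.2 ⟨d1.1 hy, ks a (image_mono d1.1 hy')⟩⟩
    · have hE := hD.image g
      have t1 := hS.clop_der dc dr hE (sdiff_subset (t := d)) disjoint_sdiff_left
      have t2 := ((d1.image g).trace (km g _
        (inter_subset_right.trans (der_mono sdiff_subset)) (dr.clop t1))).trans t1
      have e : g '' d ∩ (d ∩ derivedSet (g '' D \ d)) = d ∩ g '' d := by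
        ext y
        refine ⟨fun hy => ⟨hy.2.1, hy.1⟩, fun hy => ⟨hy.2, hy.1, ?_⟩⟩
        by_contra hn
        have := der_inter (ks g (image_mono d1.1 hy.2)) hn
        rw [sm _ inter_subset_right (hE.dsc.mono inter_subset_left)] at this
        exact this
      rwa [e] at t2
    · rw [isClosed_iff_derivedSet_subset, sm E e1 e2]
      exact empty_subset _

/-- discrete subsets of an infinite thin `T1` space have no accumulation points -/
theorem Thin.der_disc_ca (hS : Thin S) {D : Set S} (hD : Disc D) : derivedSet D = ∅ := by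
  by_contra hn
  let T : Set Cardinal.{u} := {l | ∃ A : Set S, Disc A ∧ #A = l ∧ (derivedSet A).Nonempty}
  obtain ⟨A, a1, a2, a3⟩ := csInf_mem (s := T) ⟨_, D, hD, rfl, nonempty_iff_ne_empty.2 hn⟩
  have hA : MDa (sInf T) A := ⟨a1, a2⟩
  have hM : MCa S (sInf T) := by
    refine ⟨hS, ?_, fun B b1 b2 => ?_, fun B hB => ?_, A, hA⟩
    · obtain ⟨x, hx⟩ := a3
      have := (inf_of_der hx).to_subtype
      exact a2 ▸ Cardinal.aleph0_le_mk A
    · by_contra h
      exact b2.not_ge (csInf_le' ⟨B, b1, rfl, nonempty_iff_ne_empty.2 h⟩)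
    · obtain ⟨g, rfl⟩ := hS.eqv_disc_ca a1 hB.dsc (a2.trans hB.card.symm)
      rw [← img_der]
      exact a3.image g
  refine hM.not_scattered fun E hE X h1 h2 => ?_
  by_contra h
  exact hM.not_kernel hE ((nonempty_iff_ne_empty.2 h).mono (sub_kern_ca h1 h2))

/-- discrete subsets of an infinite thin `T1` space are closed -/
theorem Thin.disc_closed (hS : Thin S) {D : Set S} (hD : Disc D) : IsClosed D := by
  rw [isClosed_iff_derivedSet_subset, hS.der_disc_ca hD]
  exact empty_subset _

end Pool.Agent.Lib.MP_52f683_gt
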